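import Mathlib
import Pool.Agent.Lib.MP_565a2b_an.Space
import Pool.Agent.Lib.MP_565a2b_an.Lower
import Pool.Agent.Lib.MP_565a2b_an.Upper

set_option autoImplicit false

namespace Pool.Agent.Results.MP_565a2b_an.DualIndex

open Filter Topology Pool.Agent.MP_565a2b_an
open scoped ZeroAtInfty ComplexConjugate

universe u v

/-- The numerical radius of a bounded operator `T` on a real normed space:
`v(T) = sup {|f (T x)| : ‖x‖ = ‖f‖ = 1, f x = 1}`. -/
noncomputable def numRadius {X : Type v} [NormedAddCommGroup X] [NormedSpace ℝ X]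
    (T : X →L[ℝ] X) : ℝ :=
  sSup {r : ℝ | ∃ (x : X) (f : X →L[ℝ] ℝ), ‖x‖ = 1 ∧ ‖f‖ = 1 ∧ f x = 1 ∧ r = |f (T x)|}

/-- The numerical index of a real normed space: `n(X) = inf {v(T) : ‖T‖ = 1}`. -/
noncomputable def numIndex (X : Type v) [NormedAddCommGroup X] [NormedSpace ℝ X] : ℝ :=
  sInf {s : ℝ | ∃ T : X →L[ℝ] X, ‖T‖ = 1 ∧ s = numRadius T}

/-- Hahn-Banach for closed subspaces. -/
lemma exists_annihilator {E : Type u} [NormedAddCommGroup E] [NormedSpace ℝ E]
    (S : Submodule ℝ E) (hS : IsClosed (S : Set E)) (x : E) (hx : x ∉ S) :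
    ∃ f : E →L[ℝ] ℝ, (∀ y ∈ S, f y = 0) ∧ f x ≠ 0 := by
  obtain ⟨f, u, h1, h2⟩ := geometric_hahn_banach_closed_point (S.convex) hS hx
  have h0 : 0 < u := by simpa using h1 0 S.zero_mem
  refine ⟨f, fun y hy => ?_, ?_⟩
  · by_contra hne
    have := h1 ((u / f y) • y) (S.smul_mem _ hy)
    rw [map_smul, smul_eq_mul, div_mul_cancel₀ _ hne] at this
    exact lt_irrefl _ this
  · intro h
    rw [h] at h2
    linarith

/-- A Banach space whose unit ball has enough (linearly) strongly exposed points to separate the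
points of the dual is the strongly unique isometric predual of its dual: every linear isometry of
a dual space onto the dual of `X` is the adjoint of a linear isometry of `X` onto the predual. -/
theorem strongly_unique_predual {X : Type v} [NormedAddCommGroup X] [NormedSpace ℝ X]
    [CompleteSpace X] {ι : Type} (xs : ι → X) (c : ι → X →L[ℝ] ℝ) (κ : ℝ) (hκ : 0 < κ)
    (hc : ∀ i, c i (xs i) = 1) (hx : ∀ i, ‖xs i‖ ≤ 1)
    (hexp : ∀ i z, |c i z| + κ * ‖z - c i z • xs i‖ ≤ ‖z‖)
    (hdense : ∀ f : X →L[ℝ] ℝ, (∀ i, f (xs i) = 0) → f = 0)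
    (Z : Type u) [NormedAddCommGroup Z] [NormedSpace ℝ Z] [CompleteSpace Z]
    (U : (Z →L[ℝ] ℝ) ≃ₗᵢ[ℝ] (X →L[ℝ] ℝ)) :
    ∃ V : X ≃ₗᵢ[ℝ] Z, ∀ (g : Z →L[ℝ] ℝ) (x : X), U g x = g (V x) := by
  classical
  -- norms of the functionals
  have hcn : ∀ i, ‖c i‖ = 1 := by
    intro i
    apply le_antisymm
    · refine ContinuousLinearMap.opNorm_le_bound _ zero_le_one (fun z => ?_)
      rw [one_mul, Real.norm_eq_abs]
      have := hexp i z
      have h2 : 0 ≤ κ * ‖z - c i z • xs i‖ := by positivity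
      linarith
    · have h1 := (c i).le_opNorm (xs i)
      rw [hc i, norm_one] at h1
      have := hx i
      have h0 := norm_nonneg (c i)
      nlinarith
  let JX := NormedSpace.inclusionInDoubleDualLi (E := X) ℝ
  let JZ := NormedSpace.inclusionInDoubleDualLi (E := Z) ℝ
  let Uc : (Z →L[ℝ] ℝ) →L[ℝ] (X →L[ℝ] ℝ) := U.toContinuousLinearEquiv.toContinuousLinearMap
  let Ψ : X →L[ℝ] ((Z →L[ℝ] ℝ) →L[ℝ] ℝ) :=
    ((ContinuousLinearMap.compL ℝ (Z →L[ℝ] ℝ) (X →L[ℝ] ℝ) ℝ).flip Uc).comp
      (NormedSpace.inclusionInDoubleDual ℝ X)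
  have hΨ : ∀ x g, Ψ x g = U g x := fun x g => rfl
  have hJZ : ∀ z g, JZ z g = g z := fun z g => rfl
  have hΨn : ∀ x, ‖Ψ x‖ = ‖x‖ := by
    intro x
    apply le_antisymm
    · refine ContinuousLinearMap.opNorm_le_bound _ (norm_nonneg _) (fun g => ?_)
      rw [hΨ]
      calc ‖U g x‖ ≤ ‖U g‖ * ‖x‖ := (U g).le_opNorm x
        _ = ‖x‖ * ‖g‖ := by rw [U.norm_map, mul_comm]
    · obtain ⟨g, hg1, hg2⟩ := exists_dual_vector'' ℝ x
      have h := (Ψ x).le_opNorm (U.symm g)
      rw [hΨ, U.apply_symm_apply, U.symm.norm_map, hg2] at h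
      simp only [RCLike.ofReal_real_eq_id, id_eq, norm_norm] at h
      have := norm_nonneg (Ψ x)
      nlinarith
  have hJZclosed : IsClosed (LinearMap.range JZ.toLinearMap : Set ((Z →L[ℝ] ℝ) →L[ℝ] ℝ)) := by
    have := JZ.isometry.isUniformInducing.isComplete_range.isClosed
    simpa [LinearMap.coe_range] using this
  let S : Submodule ℝ X := (LinearMap.range JZ.toLinearMap).comap Ψ.toLinearMap
  have hSclosed : IsClosed (S : Set X) := by
    have := hJZclosed.preimage Ψ.continuous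
    simpa [S, Submodule.comap_coe] using this
  -- key estimate
  have key : ∀ i (z : Z), ‖z‖ ≤ 1 → ∀ g : Z →L[ℝ] ℝ,
      |g z - U g (xs i)| ≤ (1 - (U.symm (c i)) z) * (1 / κ + 1) * ‖g‖ := by
    intro i z hz g
    have main : ∀ F : X →L[ℝ] ℝ, U.symm F z - F (xs i) ≤
        (1 - (U.symm (c i)) z) * (1 / κ + 1) * ‖F‖ := by
      intro F
      by_cases hF : ‖F‖ = 0
      · have : F = 0 := norm_eq_zero.mp hF
        subst this
        simp
      have hFpos : 0 < ‖F‖ := lt_of_le_of_ne (norm_nonneg _) (Ne.symm hF)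
      let k' : ℝ := κ / ‖F‖
      have hk' : 0 < k' := by positivity
      let h : X →L[ℝ] ℝ := c i + k' • (F - F (xs i) • c i)
      have hh : ‖h‖ ≤ 1 := by
        refine ContinuousLinearMap.opNorm_le_bound _ zero_le_one (fun w => ?_)
        rw [one_mul]
        have e1 : h w = c i w + k' * F (w - c i w • xs i) := by
          simp only [h, add_apply, smul_apply,
            sub_apply, smul_eq_mul, map_sub, map_smul]
          ring
        rw [e1, Real.norm_eq_abs]
        calc |c i w + k' * F (w - c i w • xs i)|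
            ≤ |c i w| + |k' * F (w - c i w • xs i)| := abs_add_le _ _
          _ = |c i w| + k' * ‖F (w - c i w • xs i)‖ := by
              rw [abs_mul, abs_of_pos hk', Real.norm_eq_abs]
          _ ≤ |c i w| + k' * (‖F‖ * ‖w - c i w • xs i‖) := by
              gcongr
              exact F.le_opNorm _
          _ = |c i w| + κ * ‖w - c i w • xs i‖ := by
              simp only [k']
              field_simp
          _ ≤ ‖w‖ := hexp i w
      have h1 : U.symm h z ≤ 1 := by
        have := (U.symm h).le_opNorm z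
        rw [U.symm.norm_map, Real.norm_eq_abs] at this
        have h2 := le_abs_self (U.symm h z)
        have := norm_nonneg h
        have := norm_nonneg z
        nlinarith
      have e2 : U.symm h z = U.symm (c i) z + k' * (U.symm F z - F (xs i) * U.symm (c i) z) := by
        simp [h]
      have hFx : |F (xs i)| ≤ ‖F‖ := by
        have := F.le_opNorm (xs i)
        rw [Real.norm_eq_abs] at this
        have := hx i
        nlinarith
      have hcz : U.symm (c i) z ≤ 1 := by
        have := (U.symm (c i)).le_opNorm z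
        rw [U.symm.norm_map, Real.norm_eq_abs, hcn i] at this
        have h2 := le_abs_self (U.symm (c i) z)
        linarith
      rw [e2] at h1
      have h3 : U.symm F z - F (xs i) * U.symm (c i) z ≤ (1 - U.symm (c i) z) * (‖F‖ / κ) := by
        have : k' * (U.symm F z - F (xs i) * U.symm (c i) z) ≤ 1 - U.symm (c i) z := by linarith
        have h4 : (U.symm F z - F (xs i) * U.symm (c i) z)
            = (k' * (U.symm F z - F (xs i) * U.symm (c i) z)) * (‖F‖ / κ) := by
          simp only [k']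
          field_simp
        rw [h4]
        exact mul_le_mul_of_nonneg_right this (by positivity)
      have h5 : F (xs i) * (U.symm (c i) z - 1) ≤ ‖F‖ * (1 - U.symm (c i) z) := by
        have := abs_le.mp hFx
        nlinarith
      calc U.symm F z - F (xs i)
          = (U.symm F z - F (xs i) * U.symm (c i) z) + F (xs i) * (U.symm (c i) z - 1) := by ring
        _ ≤ (1 - U.symm (c i) z) * (‖F‖ / κ) + ‖F‖ * (1 - U.symm (c i) z) := add_le_add h3 h5
        _ = (1 - (U.symm (c i)) z) * (1 / κ + 1) * ‖F‖ := by ring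
    rw [abs_le]
    constructor
    · have := main (-(U g))
      simp only [map_neg, neg_apply, LinearIsometryEquiv.symm_apply_apply,
        norm_neg, U.norm_map] at this
      linarith
    · have := main (U g)
      simp only [LinearIsometryEquiv.symm_apply_apply, U.norm_map] at this
      linarith
  have hmem : ∀ i, xs i ∈ S := by
    intro i
    show Ψ (xs i) ∈ LinearMap.range JZ.toLinearMap
    -- approximating sequence
    have hex : ∀ k : ℕ, ∃ z : Z, ‖z‖ ≤ 1 ∧ 1 - 1 / ((k : ℝ) + 1) ≤ U.symm (c i) z := by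
      intro k
      have hk : (0 : ℝ) < 1 / ((k : ℝ) + 1) := by positivity
      have hn : ‖U.symm (c i)‖ = 1 := by rw [U.symm.norm_map, hcn i]
      obtain ⟨z, hz1, hz2⟩ := ContinuousLinearMap.exists_lt_apply_of_lt_opNorm (U.symm (c i))
        (r := 1 - 1 / ((k : ℝ) + 1)) (by rw [hn]; linarith)
      rw [Real.norm_eq_abs] at hz2
      rcases le_total 0 (U.symm (c i) z) with h | h
      · rw [abs_of_nonneg h] at hz2
        exact ⟨z, hz1.le, hz2.le⟩
      · rw [abs_of_nonpos h] at hz2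
        exact ⟨-z, by rw [norm_neg]; exact hz1.le, by rw [map_neg]; exact hz2.le⟩
    choose z hz1 hz2 using hex
    have hlim : Tendsto (fun k => JZ (z k)) atTop (𝓝 (Ψ (xs i))) := by
      have hiff := tendsto_iff_norm_sub_tendsto_zero (E := (Z →L[ℝ] ℝ) →L[ℝ] ℝ)
        (f := fun k => JZ (z k)) (a := atTop) (b := Ψ (xs i))
      refine hiff.2 ?_
      have hb : ∀ k, ‖JZ (z k) - Ψ (xs i)‖ ≤ (1 / ((k : ℝ) + 1)) * (1 / κ + 1) := by
        intro k
        refine ContinuousLinearMap.opNorm_le_bound _ (by positivity) (fun g => ?_)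
        rw [sub_apply, hJZ, hΨ, Real.norm_eq_abs]
        refine (key i (z k) (hz1 k) g).trans ?_
        gcongr
        linarith [hz2 k]
      refine squeeze_zero (fun k => norm_nonneg (E := (Z →L[ℝ] ℝ) →L[ℝ] ℝ) (JZ (z k) - Ψ (xs i))) hb ?_
      have := (tendsto_one_div_add_atTop_nhds_zero_nat (𝕜 := ℝ)).mul_const (1 / κ + 1)
      simpa using this
    have := hJZclosed.mem_of_tendsto hlim (Eventually.of_forall (fun k => ⟨z k, rfl⟩))
    exact this
  have hStop : S = ⊤ := by
    rw [Submodule.eq_top_iff']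
    intro x
    by_contra hx
    obtain ⟨f, hf1, hf2⟩ := exists_annihilator S hSclosed x hx
    exact hf2 (by rw [hdense f (fun i => hf1 _ (hmem i))]; rfl)
  -- construct the isometry
  have hall : ∀ x, ∃ z : Z, JZ z = Ψ x := by
    intro x
    have : x ∈ S := by rw [hStop]; trivial
    exact this
  choose φ hφ using hall
  have hφ_add : ∀ x y, φ (x + y) = φ x + φ y := by
    intro x y
    apply JZ.injective
    rw [map_add, hφ, hφ, hφ, map_add]
  have hφ_smul : ∀ (t : ℝ) x, φ (t • x) = t • φ x := by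
    intro t x
    apply JZ.injective
    rw [map_smul, hφ, hφ, map_smul]
  have hφ_norm : ∀ x, ‖φ x‖ = ‖x‖ := by
    intro x
    rw [← JZ.norm_map, hφ, hΨn]
  let Φ : X →ₗᵢ[ℝ] Z :=
    { toFun := φ, map_add' := hφ_add, map_smul' := hφ_smul, norm_map' := hφ_norm }
  have hΦ : ∀ x (g : Z →L[ℝ] ℝ), g (Φ x) = U g x := by
    intro x g
    show g (φ x) = U g x
    rw [← hJZ, hφ, hΨ]
  have hsurj : Function.Surjective Φ := by
    intro z
    by_contra hz
    have hcl : IsClosed (LinearMap.range Φ.toLinearMap : Set Z) := by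
      have := Φ.isometry.isUniformInducing.isComplete_range.isClosed
      simpa [LinearMap.coe_range] using this
    have hz' : z ∉ LinearMap.range Φ.toLinearMap := by
      rintro ⟨x, hx⟩
      exact hz ⟨x, hx⟩
    obtain ⟨g, hg1, hg2⟩ := exists_annihilator _ hcl z hz'
    have : U g = 0 := by
      ext x
      rw [← hΦ x g]
      exact hg1 _ ⟨x, rfl⟩
    have hg0 : g = 0 := by
      have := congrArg U.symm this
      simpa using this
    exact hg2 (by rw [hg0]; rfl)
  exact ⟨LinearIsometryEquiv.ofSurjective Φ hsurj, fun g x => (hΦ x g).symm⟩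

/-- coordinate functionals as continuous functionals -/
noncomputable def CC (n : ℕ) : XX →L[ℝ] ℝ :=
  (cc n).mkContinuous 1 (fun x => by
    rw [one_mul, Real.norm_eq_abs]
    exact (cc_le_sN n x).trans (sN_le_norm x))

lemma CC_apply (n : ℕ) (x : XX) : CC n x = cc n x := rfl

lemma norm_xs (n : ℕ) : ‖xs n‖ ≤ 1 := by
  refine norm_le' (fun k => ?_)
  by_cases h : k = n
  · subst h
    unfold pN
    rw [cc_xs_self, one_smul, sub_self]
    have : sN (0 : XX) = 0 := by
      have := sN_smul 0 (0 : XX)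
      simpa using this
    rw [this]
    simp
  · have h1 := sN_sub_smul_xs k (xs n)
    have h2 := abs_cc_xs k n h
    have h3 := sN_xs n
    unfold pN
    linarith

lemma exposed (n : ℕ) (z : XX) : |CC n z| + (1 / 102) * ‖z - CC n z • xs n‖ ≤ ‖z‖ := by
  rw [CC_apply]
  refine le_trans ?_ (pN_le_norm n z)
  have := norm_le_sN (z - cc n z • xs n)
  unfold pN
  linarith

lemma dense_xs (f : XX →L[ℝ] ℝ) (h : ∀ n, f (xs n) = 0) : f = 0 := by
  have h1 : ∀ n, (1 - uu n) * aa f n + f (em (vv n)) = 0 := by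
    intro n
    have := h n
    rw [xs, map_add, map_smul, smul_eq_mul] at this
    exact this
  have haa : Tendsto (fun n => |aa f n|) atTop (𝓝 0) := (summable_aa f).tendsto_atTop_zero
  have hb : ∀ n, |f (em (vv n))| ≤ (3 / 2) * |aa f n| := by
    intro n
    have e : f (em (vv n)) = -((1 - uu n) * aa f n) := by have := h1 n; linarith
    rw [e, abs_neg, abs_mul]
    have h2 := abs_uu n
    have h3 : |1 - uu n| ≤ 3 / 2 := by
      have := abs_sub 1 (uu n)
      rw [abs_one] at this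
      linarith
    exact mul_le_mul_of_nonneg_right h3 (abs_nonneg _)
  have hlim : Tendsto (fun n => (3 / 2) * |aa f n|) atTop (𝓝 0) := by
    have := haa.const_mul (3 / 2 : ℝ)
    simpa using this
  have hE : f (em (1 / 2)) = 0 := by
    have h2 : Tendsto (fun k : ℕ => 2 * k) atTop atTop :=
      tendsto_atTop_mono (fun k => by simp only [id]; omega) tendsto_id
    have h3 := ge_of_tendsto' (hlim.comp h2) (b := |f (em (1 / 2))|) (fun k => by
      have := hb (2 * k)
      rw [vv, if_pos (even_two_mul k)] at this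
      exact this)
    exact abs_nonpos_iff.mp h3
  have hO : f (em (Complex.I / 2)) = 0 := by
    have h2 : Tendsto (fun k : ℕ => 2 * k + 1) atTop atTop :=
      tendsto_atTop_mono (fun k => by simp only [id]; omega) tendsto_id
    have h3 := ge_of_tendsto' (hlim.comp h2) (b := |f (em (Complex.I / 2))|) (fun k => by
      have := hb (2 * k + 1)
      rw [vv, if_neg (by simp)] at this
      exact this)
    exact abs_nonpos_iff.mp h3
  have hem : ∀ v : ℂ, f (em v) = 0 := by
    intro v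
    have e : v = (2 * v.re) • (1 / 2 : ℂ) + (2 * v.im) • (Complex.I / 2) := by
      apply Complex.ext <;> simp <;> ring
    rw [e, map_add, map_smul, map_smul, map_add, map_smul, map_smul, hE, hO]
    simp
  have ha0 : ∀ n, aa f n = 0 := by
    intro n
    have h2 := h1 n
    rw [hem, add_zero] at h2
    have h3 := abs_uu n
    have h4 := (abs_le.mp h3).2
    rcases mul_eq_zero.mp h2 with h5 | h5
    · linarith
    · exact h5
  ext x
  have h2 := (hasSum_cc f x).tsum_eq
  simp only [ha0, zero_mul, tsum_zero] at h2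
  have h3 : GG f x.2 = 0 := by
    unfold GG
    simp [ha0, hem]
  rw [h3] at h2
  show f x = 0
  linarith

lemma norm_normalize (S : (XX →L[ℝ] ℝ) →L[ℝ] XX →L[ℝ] ℝ) (h : 0 < ‖S‖) :
    ‖(‖S‖)⁻¹ • S‖ = 1 := by
  have hle : ∀ (c : ℝ) (R : (XX →L[ℝ] ℝ) →L[ℝ] XX →L[ℝ] ℝ), ‖c • R‖ ≤ |c| * ‖R‖ := by
    intro c R
    refine ContinuousLinearMap.opNorm_le_bound _ (by positivity) (fun f => ?_)
    rw [smul_apply, norm_smul, Real.norm_eq_abs, mul_assoc]
    exact mul_le_mul_of_nonneg_left (R.le_opNorm f) (abs_nonneg _)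
  apply le_antisymm
  · refine (hle _ _).trans ?_
    rw [abs_of_pos (inv_pos.mpr h), inv_mul_cancel₀ h.ne']
  · have h1 := hle (‖S‖) ((‖S‖)⁻¹ • S)
    rw [smul_smul, mul_inv_cancel₀ h.ne', one_smul, abs_of_pos h] at h1
    by_contra hcon
    push Not at hcon
    nlinarith

lemma index_dual_le : numIndex (XX →L[ℝ] ℝ) ≤ 21 / 100 := by
  have hS := norm_SS
  have hpos : 0 < ‖SS‖ := by
    by_contra h
    push Not at h
    linarith
  have hbdd : BddBelow {s : ℝ | ∃ T : (XX →L[ℝ] ℝ) →L[ℝ] (XX →L[ℝ] ℝ), ‖T‖ = 1 ∧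
      s = numRadius T} := by
    refine ⟨0, ?_⟩
    rintro s ⟨T, _, rfl⟩
    apply Real.sSup_nonneg
    rintro r ⟨x, f, _, _, _, rfl⟩
    exact abs_nonneg _
  have hmem : numRadius ((‖SS‖)⁻¹ • SS) ∈
      {s : ℝ | ∃ T : (XX →L[ℝ] ℝ) →L[ℝ] (XX →L[ℝ] ℝ), ‖T‖ = 1 ∧ s = numRadius T} :=
    ⟨(‖SS‖)⁻¹ • SS, norm_normalize SS hpos, rfl⟩
  refine (csInf_le hbdd hmem).trans ?_
  apply Real.sSup_le _ (by norm_num)
  rintro r ⟨x, f, hx, hf, hfx, rfl⟩
  have h1 := upper x f hx hf hfx
  have h2 : f (((‖SS‖)⁻¹ • SS) x) = (‖SS‖)⁻¹ * f (SS x) := by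
    rw [smul_apply, map_smul, smul_eq_mul]
  rw [h2, abs_mul, abs_inv, abs_of_pos hpos, inv_mul_eq_div, div_le_iff₀ hpos]
  nlinarith

lemma le_index : 9 / 10 ≤ numIndex XX := by
  have : Nontrivial XX := by
    refine ⟨⟨ee 0, 0, fun h => ?_⟩⟩
    have h1 := cc_ee 0 0
    rw [h, map_zero] at h1
    simp at h1
  refine le_csInf ⟨_, ContinuousLinearMap.id ℝ XX, ContinuousLinearMap.norm_id, rfl⟩ ?_
  rintro s ⟨T, hT, rfl⟩
  obtain ⟨x, f, hx, hf, hfx, hval⟩ := lower T hT
  rw [Real.norm_eq_abs] at hval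
  refine hval.trans (le_csSup ⟨1, ?_⟩ ⟨x, f, hx, hf, hfx, rfl⟩)
  rintro r ⟨x, f, hx, hf, hfx, rfl⟩
  calc |f (T x)| = ‖f (T x)‖ := (Real.norm_eq_abs _).symm
    _ ≤ ‖f‖ * ‖T x‖ := f.le_opNorm _
    _ ≤ ‖f‖ * (‖T‖ * ‖x‖) := by gcongr; exact T.le_opNorm _
    _ = 1 := by rw [hf, hT, hx]; norm_num

/-- The underlying sequence of the pair `(y, v)`: the two real coordinates of `v`, then `y`. -/
def seq (p : C₀(ℕ, ℝ) × ℂ) : ℕ → ℝ
  | 0 => p.2.re
  | 1 => p.2.im
  | (n + 2) => p.1 n

lemma tendsto_zero (y : C₀(ℕ, ℝ)) : Tendsto (fun n => y n) atTop (𝓝 0) := by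
  have := y.zero_at_infty'
  rw [cocompact_eq_cofinite, Nat.cofinite_eq_atTop] at this
  exact this

/-- `c₀ ⊕ ℂ` is linearly isomorphic to `c₀`. -/
noncomputable def toC0 : (C₀(ℕ, ℝ) × ℂ) ≃ₗ[ℝ] C₀(ℕ, ℝ) where
  toFun p :=
    { toFun := seq p
      continuous_toFun := continuous_of_discreteTopology
      zero_at_infty' := by
        rw [cocompact_eq_cofinite, Nat.cofinite_eq_atTop]
        exact (tendsto_add_atTop_iff_nat (f := seq p) 2).mp (tendsto_zero p.1) }
  map_add' p q := by
    ext n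
    match n with
    | 0 => rfl
    | 1 => rfl
    | (n + 2) => rfl
  map_smul' t p := by
    ext n
    match n with
    | 0 => simp [seq]
    | 1 => simp [seq]
    | (n + 2) => rfl
  invFun y :=
    ({ toFun := fun n => y (n + 2)
       continuous_toFun := continuous_of_discreteTopology
       zero_at_infty' := by
         rw [cocompact_eq_cofinite, Nat.cofinite_eq_atTop]
         exact (tendsto_add_atTop_iff_nat (f := fun n => y n) 2).mpr (tendsto_zero y) },
     ⟨y 0, y 1⟩)
  left_inv p := by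
    refine Prod.ext ?_ ?_
    · ext n
      rfl
    · rfl
  right_inv y := by
    ext n
    match n with
    | 0 => rfl
    | 1 => rfl
    | (n + 2) => rfl

lemma toC0_apply (p : C₀(ℕ, ℝ) × ℂ) (n : ℕ) : toC0 p n = seq p n := rfl

/-- The space is a renorming of `c₀`. -/
lemma iso_c0 : Nonempty (XX ≃L[ℝ] C₀(ℕ, ℝ)) := by
  let e : XX ≃ₗ[ℝ] C₀(ℕ, ℝ) := toC0
  have h1 : ∀ x : XX, ‖e x‖ ≤ 2 * ‖x‖ := by
    intro x
    have a1 := sN_le_norm x
    have a2 := fst_le_sN x
    have a3 := snd_le_sN x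
    have a4 := sN_nonneg x
    refine norm_le_of_abs_le _ _ (by linarith) (fun n => ?_)
    show |seq (x : C₀(ℕ, ℝ) × ℂ) n| ≤ 2 * ‖x‖
    match n with
    | 0 =>
      have := Complex.abs_re_le_norm x.2
      show |x.2.re| ≤ _
      linarith
    | 1 =>
      have := Complex.abs_im_le_norm x.2
      show |x.2.im| ≤ _
      linarith
    | (n + 2) =>
      have := abs_apply_le x.1 n
      show |x.1 n| ≤ _
      linarith
  have h2 : ∀ y : C₀(ℕ, ℝ), ‖e.symm y‖ ≤ 4 * ‖y‖ := by
    intro y
    have b0 := norm_nonneg y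
    have b1 := norm_le_sN (e.symm y)
    have b2 := sN_le_sum (e.symm y)
    have b3 : ‖(e.symm y).1‖ ≤ ‖y‖ :=
      norm_le_of_abs_le _ _ b0 (fun n => abs_apply_le y (n + 2))
    have b4 : ‖(e.symm y).2‖ ≤ 2 * ‖y‖ := by
      refine (Complex.norm_le_abs_re_add_abs_im _).trans ?_
      have c0 : |(e.symm y).2.re| ≤ ‖y‖ := abs_apply_le y 0
      have c1 : |(e.symm y).2.im| ≤ ‖y‖ := abs_apply_le y 1
      linarith
    linarith
  exact ⟨e.toContinuousLinearEquivOfBounds 2 4 h1 h2⟩

/-- There is a real Banach space `X`, a renorming of `c₀`, that is the strongly unique predual of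
its dual, with `n(X*) ≤ 0.21` and `n(X) ≥ 0.9`. -/
theorem result :
    ∃ (X : Type) (_ : NormedAddCommGroup X) (_ : NormedSpace ℝ X),
      CompleteSpace X ∧
      Nonempty (X ≃L[ℝ] C₀(ℕ, ℝ)) ∧
      (∀ (Z : Type u) [NormedAddCommGroup Z] [NormedSpace ℝ Z] [CompleteSpace Z]
        (U : (Z →L[ℝ] ℝ) ≃ₗᵢ[ℝ] (X →L[ℝ] ℝ)),
        ∃ V : X ≃ₗᵢ[ℝ] Z, ∀ (g : Z →L[ℝ] ℝ) (x : X), U g x = g (V x)) ∧
      numIndex (X →L[ℝ] ℝ) ≤ 21 / 100 ∧ 9 / 10 ≤ numIndex X :=
  ⟨XX, inferInstance, inferInstance, inferInstance, iso_c0,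
    fun Z _ _ _ U => strongly_unique_predual xs CC (1 / 102) (by norm_num)
      (fun n => by rw [CC_apply, cc_xs_self]) norm_xs exposed dense_xs Z U,
    index_dual_le, le_index⟩

end Pool.Agent.Results.MP_565a2b_an.DualIndex
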